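import Pool.Agent.Lib_MP_11e9c7_an.Final

/-!
# Multipliers of critically fixed rational maps: the disk inclusion is false

There is a polynomial of degree `6401`, critically fixed as a self-map of the Riemann sphere,
which has a fixed point whose multiplier lies outside the closed disk of center `3201` and
radius `3200`.
-/

namespace Pool.Agent.Results.MP_11e9c7_an.DiskFails

open Polynomial OnePoint

/-- The self-map of the Riemann sphere `ℂ ∪ {∞}` given by the quotient `P / Q` of two
polynomials (it is meant for coprime `P`, `Q`). At a finite point `z` its value is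
`P(z) / Q(z)`, or `∞` if `Q(z) = 0`. At `∞` its value is `∞` if `deg Q < deg P` and otherwise the
limit of `P(z) / Q(z)`, which is the coefficient of `P` in degree `deg Q` divided by the leading
coefficient of `Q`. -/
noncomputable def ratMap (P Q : ℂ[X]) (x : OnePoint ℂ) : OnePoint ℂ :=
  x.elim
    (if Q.natDegree < P.natDegree then ∞
      else ((P.coeff Q.natDegree / Q.leadingCoeff : ℂ) : OnePoint ℂ))
    (fun z => if Q.eval z = 0 then ∞ else ((P.eval z / Q.eval z : ℂ) : OnePoint ℂ))

/-- The affine coordinate used near the point `x`: it is `z` if `x` is finite, and `1 / z`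
if `x = ∞`. This is the coordinate of the point `y`. -/
noncomputable def coord (x y : OnePoint ℂ) : ℂ :=
  x.elim (y.elim 0 (fun z => z⁻¹)) (fun _ => y.elim 0 (fun z => z))

/-- The point with coordinate `w` in the affine chart used near the point `x`. -/
noncomputable def point (x : OnePoint ℂ) (w : ℂ) : OnePoint ℂ :=
  x.elim (if w = 0 then ∞ else ((w⁻¹ : ℂ) : OnePoint ℂ)) (fun _ => (w : OnePoint ℂ))

/-- The derivative of `f` at the point `x` of the sphere, computed in the affine chart used near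
`x` and the one used near `f x`. At a fixed point the two charts agree and this is the
multiplier. -/
noncomputable def sphereDeriv (f : OnePoint ℂ → OnePoint ℂ) (x : OnePoint ℂ) : ℂ :=
  deriv (fun w : ℂ => coord (f x) (f (point x w))) (coord x x)

/-- Every critical point of `f` on the sphere is a fixed point of `f`. -/
def CriticallyFixed (f : OnePoint ℂ → OnePoint ℂ) : Prop :=
  ∀ x : OnePoint ℂ, sphereDeriv f x = 0 → f x = x

/-- The set of the multipliers of the fixed points of `f` other than `0` and `1`. -/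
def multiplierSet (f : OnePoint ℂ → OnePoint ℂ) : Set ℂ :=
  {μ | μ ≠ 0 ∧ μ ≠ 1 ∧ ∃ x : OnePoint ℂ, f x = x ∧ sphereDeriv f x = μ}

theorem ratMap_infty {P : ℂ[X]} (hP : 0 < P.natDegree) : ratMap P 1 ∞ = ∞ := by
  unfold ratMap
  rw [OnePoint.elim_infty, if_pos]
  simpa using hP

theorem ratMap_coe (P : ℂ[X]) (z : ℂ) : ratMap P 1 (z : OnePoint ℂ) = ((P.eval z : ℂ) : OnePoint ℂ) := by
  unfold ratMap
  rw [OnePoint.elim_some, if_neg]
  · simp
  · simp

theorem sphereDeriv_coe (P : ℂ[X]) (z : ℂ) :
    sphereDeriv (ratMap P 1) (z : OnePoint ℂ) = (derivative P).eval z := by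
  unfold sphereDeriv
  have h1 : (fun w : ℂ => coord (ratMap P 1 (z : OnePoint ℂ))
      (ratMap P 1 (point (z : OnePoint ℂ) w))) = fun w : ℂ => P.eval w := by
    funext w
    have h2 : point (z : OnePoint ℂ) w = (w : OnePoint ℂ) := rfl
    rw [h2, ratMap_coe, ratMap_coe]
    rfl
  have h3 : coord (z : OnePoint ℂ) (z : OnePoint ℂ) = z := rfl
  rw [h1, h3]
  exact Polynomial.deriv P

theorem eq_zero_of_pow {m : ℕ} {x : ℂ} (h : x ^ m = 0) : x = 0 := by
  by_contra h4
  exact pow_ne_zero _ h4 h

open LibCrit in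
theorem eq_of_PP_eq_zero {a b e : ℕ} {c z : ℂ} (h : PP a b e c z = 0) :
    z = 0 ∨ z = 1 ∨ z = c := by
  unfold PP at h
  rcases mul_eq_zero.1 h with h | h
  · rcases mul_eq_zero.1 h with h | h
    · exact Or.inl (eq_zero_of_pow h)
    · exact Or.inr (Or.inl (sub_eq_zero.1 (eq_zero_of_pow h)))
  · exact Or.inr (Or.inr (sub_eq_zero.1 (eq_zero_of_pow h)))

open LibCrit in
/-- The polynomial with the prescribed critical points. -/
theorem exists_polynomial_of (a b e : ℕ) {c p : ℂ} {D : ℝ} {E : ℂ}
    (hc : Phi a b e c c = Phi a b e c 1) (hp : Phi a b e c p = Phi a b e c 1)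
    (h1 : Phi a b e c 1 ≠ 0) (hPP : PP a b e c p ≠ 0) (hD : ‖E - 2‖ = D)
    (hlt : D * ‖Phi a b e c 1‖ < ‖2 * PP a b e c p - E * Phi a b e c 1‖) :
    ∃ P : ℂ[X], P.natDegree = a + b + e + 1 ∧ CriticallyFixed (ratMap P 1) ∧
    ∃ μ ∈ multiplierSet (ratMap P 1), D / 2 < ‖μ - E / 2‖ := by
  set Φ : ℂ := Phi a b e c 1 with hΦ
  have hinv : Φ⁻¹ ≠ 0 := inv_ne_zero h1
  set P : ℂ[X] := C (Φ⁻¹) * FF a b e c with hP
  have hdeg : P.natDegree = a + b + e + 1 := by
    rw [hP, natDegree_C_mul hinv, FF_natDegree]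
  have heval : ∀ z, P.eval z = z * Phi a b e c z / Φ := by
    intro z
    rw [hP, eval_mul, eval_C, FF_eval]
    field_simp
  have hder : ∀ z, (derivative P).eval z = PP a b e c z / Φ := by
    intro z
    rw [hP, derivative_C_mul, eval_mul, eval_C, FF_derivative_eval]
    field_simp
  refine ⟨P, hdeg, ?_, PP a b e c p / Φ, ⟨?_, ?_, (p : OnePoint ℂ), ?_, ?_⟩, ?_⟩
  · intro x hx
    induction x using OnePoint.rec with
    | infty => exact ratMap_infty (by rw [hdeg]; omega)
    | coe z =>
      rw [sphereDeriv_coe, hder] at hx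
      rw [ratMap_coe, heval]
      have h2 : PP a b e c z = 0 := by
        rcases div_eq_zero_iff.1 hx with h | h
        · exact h
        · exact absurd h h1
      rcases eq_of_PP_eq_zero h2 with h3 | h3 | h3
      · rw [h3, zero_mul, zero_div]
      · rw [h3, ← hΦ, one_mul, div_self h1]
      · rw [h3, hc, mul_div_assoc, div_self h1, mul_one]
  · exact div_ne_zero hPP h1
  · intro h2
    have h3 : PP a b e c p = Φ := by
      rw [div_eq_iff h1] at h2
      rw [h2, one_mul]
    rw [h3] at hlt
    have h4 : 2 * Φ - E * Φ = -((E - 2) * Φ) := by ring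
    rw [h4, norm_neg, norm_mul, hD] at hlt
    exact lt_irrefl _ hlt
  · rw [ratMap_coe, heval, hp, mul_div_assoc, div_self h1, mul_one]
  · rw [sphereDeriv_coe, hder]
  · have hΦn : 0 < ‖Φ‖ := norm_pos_iff.2 h1
    have h2 : 2 * PP a b e c p - E * Φ =
        (2 * Φ) * (PP a b e c p / Φ - E / 2) := by
      field_simp
    rw [h2, norm_mul, norm_mul] at hlt
    have h5 : ‖(2 : ℂ)‖ = 2 := by simp
    rw [h5] at hlt
    have h6 : (2 * ‖Φ‖) * (D / 2) < (2 * ‖Φ‖) * ‖PP a b e c p / Φ - E / 2‖ := by linarith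
    exact lt_of_mul_lt_mul_left h6 (by positivity)

/-- The explicit counterexample. -/
theorem exists_polynomial : ∃ P : ℂ[X], P.natDegree = 6401 ∧ CriticallyFixed (ratMap P 1) ∧
    ∃ μ ∈ multiplierSet (ratMap P 1), 3200 < ‖μ - 3201‖ := by
  obtain ⟨c, p, hc, hp, h1, hPP, hlt⟩ := LibCrit.exists_crit_fix
  obtain ⟨P, hdeg, hcf, μ, hμ, h⟩ := exists_polynomial_of 4096 2048 256 hc hp h1 hPP
    (D := 6400) (E := 6402) (by norm_num) hlt
  refine ⟨P, hdeg, hcf, μ, hμ, ?_⟩
  have e1 : (6402 : ℂ) / 2 = 3201 := by norm_num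
  have e2 : (6400 : ℝ) / 2 = 3200 := by norm_num
  rw [e1, e2] at h
  exact h

/-- There is a critically fixed rational map of degree `6401`, given by a polynomial, one of
whose fixed points has a multiplier (other than `0` and `1`) outside the closed disk of center
`(d + 1) / 2 = 3201` and radius `(d - 1) / 2 = 3200`. So it is false that for every degree
`d ≥ 2` and every critically fixed rational map of degree `d` the multipliers other than `0`
and `1` of its fixed points lie in the closed disk of center `(d + 1) / 2` and radius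
`(d - 1) / 2`. -/
theorem result :
    (∃ P : ℂ[X], P.natDegree = 6401 ∧ CriticallyFixed (ratMap P 1) ∧
      ∃ μ ∈ multiplierSet (ratMap P 1), 3200 < ‖μ - 3201‖) ∧
    ¬ ∀ d : ℕ, 2 ≤ d → ∀ P Q : ℂ[X], IsCoprime P Q → max P.natDegree Q.natDegree = d →
      CriticallyFixed (ratMap P Q) →
      multiplierSet (ratMap P Q) ⊆ Metric.closedBall (((d : ℂ) + 1) / 2) (((d : ℝ) - 1) / 2) := by
  refine ⟨exists_polynomial, ?_⟩
  intro h
  obtain ⟨P, hdeg, hcf, μ, hμ, hlt⟩ := exists_polynomial
  have h1 := h 6401 (by norm_num) P 1 isCoprime_one_right (by rw [hdeg, natDegree_one]; rfl) hcf hμ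
  rw [Metric.mem_closedBall, dist_eq_norm] at h1
  have e1 : (((6401 : ℕ) : ℂ) + 1) / 2 = 3201 := by norm_num
  have e2 : (((6401 : ℕ) : ℝ) - 1) / 2 = 3200 := by norm_num
  rw [e1, e2] at h1
  exact absurd h1 (not_le.2 hlt)

end Pool.Agent.Results.MP_11e9c7_an.DiskFails
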